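import Pool.Agent.W626.AH.Stm

/-!
Project AH, part VPB: comparison of the distances of virtual points and of points near them.
-/

set_option autoImplicit false

namespace Pool.Agent.W308.AHVPB

open Pool.Agent.W626.AH

theorem main : S_vpb := by
  intro S d hd hH p p' P P' hP hP'
  obtain ⟨x, y, s, t⟩ := p
  obtain ⟨x', y', s', t'⟩ := p'
  obtain ⟨h1, h2, h3⟩ := hP
  obtain ⟨h4, h5, h6⟩ := hP'
  simp only at h1 h2 h3 h4 h5 h6
  rw [abs_le] at h1 h2 h4 h5
  -- triangle inequality
  have tr : ∀ u u', d u u' ≤ d P u + d P P' + d P' u' := by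
    intro u u'
    have a1 := hd.tri u P u'
    have a2 := hd.tri P P' u'
    have a3 := hd.symm u P
    linarith
  constructor
  · unfold vd
    simp only
    refine max_le (max_le ?_ ?_) (max_le ?_ ?_)
    · have := tr x x'; linarith [h1.1, h1.2, h4.1, h4.2]
    · have := tr x y'; linarith [h1.1, h1.2, h5.1, h5.2]
    · have := tr y x'; linarith [h2.1, h2.2, h4.1, h4.2]
    · have := tr y y'; linarith [h2.1, h2.2, h5.1, h5.2]
  · have step1 : d P P' ≤ d P' x - d P x + 1 ∨ d P P' ≤ d P' y - d P y + 1 := by
      have a1 := hH P P' x y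
      rcases le_max_iff.1 (show d P P' + d x y - 1 ≤ max (d P x + d P' y) (d P y + d P' x) by
        linarith) with h | h
      · right; linarith
      · left; linarith
    have step2 : ∀ u, d P' u ≤ d u x' - d P' x' + 1 ∨ d P' u ≤ d u y' - d P' y' + 1 := by
      intro u
      have a1 := hH u P' x' y'
      have a2 := hd.symm u P'
      rcases le_max_iff.1 (show d u P' + d x' y' - 1 ≤ max (d u x' + d P' y')
        (d u y' + d P' x') by linarith) with h | h
      · left; linarith
      · right; linarith
    have b1 : d x x' - s - s' ≤ vd d (x, y, s, t) (x', y', s', t') :=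
      le_max_of_le_left (le_max_left _ _)
    have b2 : d x y' - s - t' ≤ vd d (x, y, s, t) (x', y', s', t') :=
      le_max_of_le_left (le_max_right _ _)
    have b3 : d y x' - t - s' ≤ vd d (x, y, s, t) (x', y', s', t') :=
      le_max_of_le_right (le_max_left _ _)
    have b4 : d y y' - t - t' ≤ vd d (x, y, s, t) (x', y', s', t') :=
      le_max_of_le_right (le_max_right _ _)
    obtain ⟨h1a, h1b⟩ := h1
    obtain ⟨h2a, h2b⟩ := h2
    obtain ⟨h4a, h4b⟩ := h4
    obtain ⟨h5a, h5b⟩ := h5
    rcases step1 with h | h
    · rcases step2 x with h' | h'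
      · linarith
      · linarith
    · rcases step2 y with h' | h'
      · linarith
      · linarith

end Pool.Agent.W308.AHVPB
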